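import Pool.Agent.H.MP_86d647_an.C

set_option autoImplicit false

namespace Pool.Agent.Results.MP_86d647_an.Yes

open Set Filter Topology MeasureTheory Metric Pool.Agent.H.MP_86d647_an
open scoped RealInnerProductSpace

/-- values of the normalised Vandermonde product of `n` points of `E` -/
def fek (E : Set ℂ) (n : ℕ) : Set ℝ :=
  {t | ∃ z : Fin n → ℂ, (∀ i, z i ∈ E) ∧
    t = (∏ i, ∏ j ∈ Finset.Ioi i, ‖z i - z j‖) ^ ((2 : ℝ) / (n * (n - 1)))}

/-- `R` is the transfinite diameter of `E` -/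
def IsTD (E : Set ℂ) (R : ℝ) : Prop :=
  ∃ d : ℕ → ℝ, (∀ n, 2 ≤ n → IsGreatest (fek E n) (d n)) ∧ Tendsto d atTop (𝓝 R)

/-- `τ` is an eigenvalue of the logarithmic potential operator on `L²(Ω)` -/
def IsEig (Ω : Set ℂ) (τ : ℝ) : Prop :=
  ∃ u : ℂ → ℝ, MemLp u 2 (volume.restrict Ω) ∧ ¬ (u =ᵐ[volume.restrict Ω] 0) ∧
    ∀ᵐ x ∂volume.restrict Ω, ∫ y in Ω, Real.log (1 / ‖x - y‖) * u y = τ * u x

/-- `τ` is the number `τ₁(Ω)` -/
def IsTau (Ω : Set ℂ) (τ : ℝ) : Prop :=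
  ∃ R, IsTD (closure Ω) R ∧ ((1 < R ∧ τ < 0 ∧ IsEig Ω τ) ∨ (R ≤ 1 ∧ τ = 0))

/-- the open half-plane -/
def half (a : ℂ) (b : ℝ) : Set ℂ := {z | ⟪a, z⟫ < b}

/-- reflection in its boundary line, for a unit vector `a` -/
noncomputable def refl (a : ℂ) (b : ℝ) (z : ℂ) : ℂ := z + (2 * (b - ⟪a, z⟫)) • a

/-- polarization -/
def Pol (Ω : Set ℂ) (a : ℂ) (b : ℝ) : Set ℂ :=
  ((Ω ∪ refl a b '' Ω) ∩ half a b) ∪ ((Ω ∩ refl a b '' Ω) \ half a b)

theorem result (Ω : Set ℂ) (ho : IsOpen Ω) (hc : IsConnected Ω) (hb : Bornology.IsBounded Ω)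
    (a : ℂ) (ha : ‖a‖ = 1) (b : ℝ) :
    (∀ s t, IsTau Ω s → IsTau (Pol Ω a b) t → s ≤ t) ∧
      ∀ t < 0, IsEig (Pol Ω a b) t → ∃ s ≤ t, IsTau Ω s := by
  have h1 : ∀ z, ⟪a, refl a b z⟫ = 2 * b - ⟪a, z⟫ := fun z => by
    rw [refl, inner_add_right, inner_smul_right, real_inner_self_eq_norm_sq, ha]; ring
  have hi : ∀ z, refl a b (refl a b z) = z := fun z => by
    rw [refl, h1, refl, add_assoc, ← add_smul]; ring_nf; simp
  have e : refl a b = (fun z => (2 * b) • a - z) ∘ (ℝ ∙ a).reflection := funext fun z => by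
    rw [Function.comp_apply, Submodule.reflection_apply,
      Submodule.starProjection_unit_singleton ℝ ha, refl]
    module
  have key : ∀ t < 0, IsEig (Pol Ω a b) t → ∃ s ≤ t, IsEig Ω s := fun t ht =>
    pol (σ := refl a b) (H := half a b) (C := {z | ⟪a, z⟫ ≤ b})
      (e ▸ (Measure.measurePreserving_sub_left _ _).comp (ℝ ∙ a).reflection.measurePreserving) hi
      (fun x y => by simp [e, ← map_sub, norm_sub_rev])
      (isOpen_lt (by fun_prop) continuous_const) (isClosed_le (by fun_prop) continuous_const)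
      (fun z (hz : ⟪a, z⟫ < b) => hz.le)
      (fun z (h : ⟪a, z⟫ ≤ b) (h' : ¬⟪a, z⟫ < b) => by
        rw [refl, le_antisymm h (not_lt.1 h')]; simp)
      (fun z h h' => by
        have h : ⟪a, z⟫ < b := h
        have h' : ⟪a, refl a b z⟫ ≤ b := h'
        rw [h1] at h'; linarith)
      ho.measurableSet hb ht (by rw [Pol, image_eq_preimage_of_inverse hi hi])
  have td : ∀ s < 0, IsEig Ω s → ∀ R, IsTD (closure Ω) R → 1 < R := fun s hs h R ⟨d, h1, h2⟩ =>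
    td_gt ho.measurableSet hb h hs (fun n hn => (h1 n hn).2) h2
  refine ⟨fun s t ⟨R, h2, h3⟩ ⟨R', _, h4⟩ => ?_, fun t ht h => ?_⟩
  · rcases h4 with ⟨-, ht, h4⟩ | ⟨-, rfl⟩
    · obtain ⟨m, h5, h6⟩ := key t ht h4
      rcases h3 with ⟨-, hs, h3⟩ | ⟨h3, -⟩
      · exact (uniq ho.measurableSet hb h6 h3 hs).trans h5
      · exact absurd (td m (h5.trans_lt ht) h6 R h2) h3.not_gt
    · exact h3.elim (fun h => h.2.1.le) fun h => h.2.le
  · obtain ⟨m, h5, h6⟩ := key t ht h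
    obtain ⟨d, R, h7⟩ := exists_td hb.isCompact_closure hc.nonempty.closure
    exact ⟨m, h5, R, ⟨d, h7⟩, .inl ⟨td m (h5.trans_lt ht) h6 R ⟨d, h7⟩, h5.trans_lt ht, h6⟩⟩

end Pool.Agent.Results.MP_86d647_an.Yes
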